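import Mathlib
import Pool.Agent.TH630.TG.Alg

/-!
`AsphericalTowers`: closed aspherical manifolds with residual chains, their homology, `L²`-Betti
numbers and `L²`-torsion, with the classical facts used in `MP_98dedd_gt`.
-/

namespace TH630.TG

open Filter Topology
open scoped TensorProduct

/-- Closed aspherical manifolds with residual chains: the data.  (The intended example consists of
all of them.) -/
structure Towers where
  /-- pairs `X = (M, (Γ_n))` of a closed connected orientable aspherical manifold `M` and a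
  decreasing sequence `(Γ_n)` of normal subgroups of finite index of `π_1 M` with trivial
  intersection; `M_n` is the finite covering of `M` belonging to `Γ_n` -/
  Man : Type
  /-- the dimension of `M` -/
  dim : Man → ℕ
  /-- `deg X n = [Γ : Γ_n]` -/
  deg : Man → ℕ → ℕ
  /-- `H X n i = H_i(M_n; ℤ)` -/
  H : Man → ℕ → ℕ → Type
  [grp : ∀ X n i, AddCommGroup (H X n i)]
  /-- the `i`-th `L²`-Betti number of the universal covering of `M` -/
  b2 : Man → ℕ → ℝ
  /-- the Euler characteristic of `M` -/
  chi : Man → ℤ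
  /-- the `L²`-torsion of the universal covering of `M` (only used if all `b2 X i` vanish) -/
  rho : Man → ℝ
  /-- the product `(M × M', (Γ_n × Γ'_n))` -/
  prod : Man → Man → Man

namespace Towers

attribute [instance] Towers.grp

variable (T : Towers)

/-- `tors H_i(M_n)` -/
def Tors (X : T.Man) (n i : ℕ) : Type := Submodule.torsion ℤ (T.H X n i)

instance torsGroup (X : T.Man) (n i : ℕ) : AddCommGroup (T.Tors X n i) :=
  Submodule.addCommGroup (Submodule.torsion ℤ (T.H X n i))

/-- the cross product `H_i(M_n) ⊗ H_j(M'_n) → H_{i+j}(M_n × M'_n)` is the inclusion of a direct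
summand (a part of the Künneth theorem) -/
def Cross : Prop := ∀ (X Y : T.Man) (n i j : ℕ),
  Retract (T.H X n i ⊗[ℤ] T.H Y n j) (T.H (T.prod X Y) n (i + j))

/-- Poincaré duality for torsion (linking form): `tors H_i ≅ tors H_j` for `i + j + 1 = dim` -/
def TorsDual : Prop := ∀ (X : T.Man) (n i j : ℕ), i + j + 1 = T.dim X →
  Nonempty (T.Tors X n i ≃+ T.Tors X n j)

/-- no torsion in degrees `≥ dim` -/
def TorsTop : Prop := ∀ (X : T.Man) (n i : ℕ), T.dim X ≤ i → Subsingleton (T.Tors X n i)

/-- Poincaré duality for `L²`-Betti numbers -/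
def BettiDual : Prop := ∀ (X : T.Man) (i j : ℕ), i + j = T.dim X → T.b2 X i = T.b2 X j

/-- Lück's approximation theorem -/
def Approximation : Prop := ∀ (X : T.Man) (i : ℕ),
  Tendsto (fun n => (Module.finrank ℤ (T.H X n i) : ℝ) / (T.deg X n : ℝ)) atTop (𝓝 (T.b2 X i))

/-- the Künneth formula for `L²`-Betti numbers -/
def BettiProd : Prop := ∀ (X Y : T.Man) (k : ℕ),
  T.b2 (T.prod X Y) k = ∑ i ∈ Finset.range (k + 1), T.b2 X i * T.b2 Y (k - i)

/-- the product formula for `L²`-torsion -/
def TorsionProd : Prop := ∀ X Y : T.Man, (∀ i, T.b2 X i = 0) →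
  T.rho (T.prod X Y) = (T.chi Y : ℝ) * T.rho X

end Towers

/-- Closed aspherical manifolds with residual chains, with the classical facts that are used about
them. -/
structure AsphericalTowers extends Towers where
  deg_pos : ∀ X n, 0 < deg X n
  /-- the homology groups are finitely generated -/
  fg : ∀ X n i, Module.Finite ℤ (H X n i)
  dim_prod : ∀ X Y, dim (prod X Y) = dim X + dim Y
  deg_prod : ∀ X Y n, deg (prod X Y) n = deg X n * deg Y n
  cross : toTowers.Cross
  tors_dual : toTowers.TorsDual
  tors_top : toTowers.TorsTop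
  b2_dual : toTowers.BettiDual
  b2_top : ∀ X i, dim X < i → b2 X i = 0
  lueck : toTowers.Approximation
  b2_prod : toTowers.BettiProd
  chi_prod : ∀ X Y, chi (prod X Y) = chi X * chi Y
  /-- the Euler characteristic vanishes in odd dimensions -/
  chi_odd : ∀ X, Odd (dim X) → chi X = 0
  rho_prod : toTowers.TorsionProd

namespace AsphericalTowers

attribute [instance] AsphericalTowers.fg

variable (T : AsphericalTowers)

/-- `log |tors H_k(M_n)| / [Γ : Γ_n]` -/
noncomputable def torsGrowth (X : T.Man) (k n : ℕ) : ℝ :=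
  Real.log (torsOrder (T.H X n k)) / (T.deg X n : ℝ)

/-- The assertion of Q1 of `MP_98dedd_gt` for the manifold and the chain `X`: if the dimension is
`2k+1` and all `L²`-Betti numbers vanish, then
`log |tors H_k(M_n)| / [Γ : Γ_n]` tends to `(-1)^k ρ`. -/
def Holds (X : T.Man) : Prop :=
  ∀ k, T.dim X = 2 * k + 1 → (∀ j, T.b2 X j = 0) →
    Tendsto (T.torsGrowth X k) atTop (𝓝 ((-1) ^ k * T.rho X))

/-- `dim H_i(M_n; F_p)` (universal coefficient theorem). -/
noncomputable def bettiMod (p : ℕ) [Fact p.Prime] (X : T.Man) (n : ℕ) : ℕ → ℕ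
  | 0 => pRank p (T.H X n 0)
  | i + 1 => pRank p (T.H X n (i + 1)) + pRank p (T.Tors X n i)

/-- `dim H_i(M_n; F_p) / [Γ : Γ_n]` -/
noncomputable def modGrowth (p : ℕ) [Fact p.Prime] (X : T.Man) (i n : ℕ) : ℝ :=
  (T.bettiMod p X n i : ℝ) / (T.deg X n : ℝ)

/-- `oddPow N s = N^(2s+1)`. -/
def oddPow (N : T.Man) : ℕ → T.Man
  | 0 => N
  | s + 1 => T.prod (oddPow N s) (T.prod N N)

section basic
variable {T}

theorem one_le_torsOrder (X : T.Man) (n i : ℕ) : 1 ≤ torsOrder (T.H X n i) := by
  have := finite_torsion (T.H X n i)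
  exact Nat.one_le_iff_ne_zero.2 Nat.card_pos.ne'

theorem step_cross {X Y : T.Man} {n k l : ℕ} {A B : Type} [AddCommGroup A] [AddCommGroup B]
    (hA : Retract A (T.H X n k)) (hB : Retract B (T.H Y n l)) :
    Retract (A ⊗[ℤ] B) (T.H (T.prod X Y) n (k + l)) :=
  (hA.tensor hB).trans (T.cross X Y n k l)

theorem finite_tensor (A B : Type) [AddCommGroup A] [AddCommGroup B] [Finite A] [Finite B] :
    Finite (A ⊗[ℤ] B) := by
  have hA : Module.Finite ℤ A := Module.Finite.of_finite
  have hB : Module.Finite ℤ B := Module.Finite.of_finite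
  have hAB : @Module.Finite ℤ (A ⊗[ℤ] B) _ _ TensorProduct.leftModule := inferInstance
  refine @Module.finite_of_fg_torsion (A ⊗[ℤ] B) _ TensorProduct.leftModule hAB ?_
  intro x
  refine ⟨⟨(Nat.card A : ℤ), mem_nonZeroDivisors_of_ne_zero (by
    exact_mod_cast Nat.card_pos.ne')⟩, ?_⟩
  show (Nat.card A : ℤ) • x = 0
  induction x with
  | zero => simp
  | tmul a b =>
    rw [TensorProduct.smul_tmul']
    have : (Nat.card A : ℤ) • a = 0 := by
      rw [natCast_zsmul]; exact card_nsmul_eq_zero'
    rw [this, TensorProduct.zero_tmul]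
  | add x y hx hy => rw [smul_add, hx, hy, add_zero]

end basic

end AsphericalTowers

end TH630.TG
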